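import Mathlib
import Pool.Agent.Helper35.HSF.StD

/-!
Project HSF (MP_925021_gt), module ARE: area, positivity and derivative.
-/

set_option autoImplicit false

namespace Helper40.HSF

open Helper35.HSF Helper35.MS Helper35.PI Helper35.PI2 Helper32.CL
open scoped ContDiff Manifold Topology ENNReal BigOperators
open MeasureTheory Set Filter

theorem hARE (hTDJ : StTDJ) (hFSJ : StFSJ) : StARE := by
  intro n N M _ _ _ _ _ _ _ _ J F c χ hS t ht
  have h1 : ∀ s, ∫ _ : M, (1 : ℝ) ∂muM n F c χ s = (muM n F c χ s).real univ := by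
    intro s
    rw [integral_const]
    simp
  constructor
  · have h0 : 0 ≤ (muM n F c χ t).real univ := measureReal_nonneg
    rcases h0.lt_or_eq with h | h
    · exact h
    · exfalso
      have := hFSJ n N M J F c χ hS.toJ t ht (fun _ => (1 : ℝ)) continuous_const
        (fun _ => zero_le_one) (by rw [h1 t, ← h])
      obtain ⟨q⟩ := (inferInstance : Nonempty M)
      exact one_ne_zero (this q)
  · have h2 := (hTDJ n N M J F c χ hS).2 (fun _ _ => (1 : ℝ)) (fun _ _ => (0 : ℝ))
      (by unfold CSTJ; exact continuousOn_const) (by unfold CSTJ; exact continuousOn_const)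
      (fun q s _ => hasDerivAt_const s (1 : ℝ)) t ht
    have h3 : (fun s => ∫ _ : M, (1 : ℝ) ∂muM n F c χ s)
        = fun s => (muM n F c χ s).real univ := funext h1
    rw [h3] at h2
    have h4 : ∫ q, ((0 : ℝ) - ‖HH (n := n) F q t‖ ^ 2 * 1) ∂muM n F c χ t
        = -∫ q, ‖HH (n := n) F q t‖ ^ 2 ∂muM n F c χ t := by
      rw [← integral_neg]
      congr 1
      funext q
      ring
    rw [h4] at h2
    exact h2

end Helper40.HSF
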