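import Mathlib
import Pool.Agent.Helper35.HSF.StF

/-!
Project HSF (MP_925021_gt), module FLD: the Lyapunov function decreases.
-/

set_option autoImplicit false

namespace Helper40.HSF

open Helper35.HSF Helper35.MS Helper35.PI Helper35.PI2 Helper32.CL
open scoped ContDiff Manifold Topology ENNReal BigOperators
open MeasureTheory Set Filter

/-- the arithmetic of the estimate -/
theorem fld_arith (n ρ R c σ K₁ B a U N₀ W P S Q Θ h : ℝ) (hn : 2 ≤ n) (hρ : 0 < ρ)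
    (hR : 0 < R) (hc : 0 < c) (hσ : 0 < σ) (hσ1 : σ ≤ 1) (hK₁ : 0 ≤ K₁) (hB : 0 ≤ B)
    (ha : 0 < a) (hU : R / 2 * a ≤ U) (hN₀ : N₀ = n / ρ * U) (h1 : N₀ ≤ c / σ * W)
    (h2 : W ≤ c * σ * N₀) (hP0 : 0 ≤ P) (hP1 : P ≤ c / σ * U) (hS0 : 0 ≤ S)
    (hS1 : S ≤ c / σ * a) (hh : h = S / a) (hP2 : P ≤ h * U + K₁ * σ ^ 2 * (c / σ) * a)
    (hΘ : Θ ≤ B * W) (hCS : N₀ ^ 2 ≤ W * Q)
    (h8 : Q - (Θ + Q / n) = (n - 1) / ρ * P) :
    0 < W ∧ (n / ρ * P) / W ≤ h ^ 2 + (2 * (2 * K₁ * c / R) * c + (2 * K₁ * c / R) ^ 2)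
      + 2 * c ^ 2 * B := by
  have hU0 : 0 < U := by
    have : 0 < R / 2 * a := by positivity
    linarith
  have hn0 : 0 < n := by linarith
  have hN0 : 0 < N₀ := by rw [hN₀]; positivity
  have hcσ : 0 < c / σ := by positivity
  have hW0 : 0 < W := by
    by_contra hneg
    push Not at hneg
    have : c / σ * W ≤ 0 := mul_nonpos_of_nonneg_of_nonpos hcσ.le hneg
    linarith
  refine ⟨hW0, ?_⟩
  obtain ⟨m, hm⟩ : ∃ m : ℝ, m = P / U := ⟨_, rfl⟩
  have hPm : P = m * U := by rw [hm]; field_simp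
  have hm0 : 0 ≤ m := by rw [hm]; positivity
  have hm1 : m ≤ c / σ := by
    rw [hm, div_le_iff₀ hU0]
    exact hP1
  obtain ⟨K₂, hK₂⟩ : ∃ K₂ : ℝ, K₂ = 2 * K₁ * c / R := ⟨_, rfl⟩
  have hK₂0 : 0 ≤ K₂ := by rw [hK₂]; positivity
  have hh0 : 0 ≤ h := by rw [hh]; positivity
  have hh1 : h ≤ c / σ := by
    rw [hh, div_le_iff₀ ha]
    exact hS1
  have hm2 : m ≤ h + K₂ * σ := by
    rw [hm, div_le_iff₀ hU0]
    have e1 : K₁ * σ ^ 2 * (c / σ) * a = K₂ * σ * (R / 2 * a) := by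
      rw [hK₂]
      field_simp
    have e2 : K₂ * σ * (R / 2 * a) ≤ K₂ * σ * U :=
      mul_le_mul_of_nonneg_left hU (by positivity)
    calc P ≤ h * U + K₁ * σ ^ 2 * (c / σ) * a := hP2
      _ ≤ h * U + K₂ * σ * U := by rw [e1]; linarith
      _ = (h + K₂ * σ) * U := by ring
  -- `N₁ = m N₀`
  have hN1 : n / ρ * P = m * N₀ := by
    rw [hPm, hN₀]
    ring
  have hQ : Q = m * N₀ + n / (n - 1) * Θ := by
    have hn1 : (n - 1) ≠ 0 := by linarith
    have hn' : n ≠ 0 := hn0.ne'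
    have e1 : n / (n - 1) * (Q - (Θ + Q / n)) = n / ρ * P := by
      rw [h8]
      field_simp
    have e2 : n / (n - 1) * (Q - (Θ + Q / n)) = Q - n / (n - 1) * Θ := by
      field_simp
      ring
    rw [← hN1, ← e1, e2]
    ring
  have hnn : n / (n - 1) ≤ 2 := by
    rw [div_le_iff₀ (by linarith)]
    linarith
  have hnn0 : 0 ≤ n / (n - 1) := div_nonneg hn0.le (by linarith)
  -- `N₀ / W ≤ Q / N₀`
  have hk1 : N₀ / W ≤ Q / N₀ := by
    rw [div_le_div_iff₀ hW0 hN0]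
    calc N₀ * N₀ = N₀ ^ 2 := by ring
      _ ≤ W * Q := hCS
      _ = Q * W := by ring
  have hk2 : Q / N₀ ≤ m + 2 * (B * (c * σ)) := by
    rw [div_le_iff₀ hN0, hQ]
    have e1 : n / (n - 1) * Θ ≤ 2 * (B * W) := by
      have hBW : 0 ≤ B * W := by positivity
      calc n / (n - 1) * Θ ≤ n / (n - 1) * (B * W) := mul_le_mul_of_nonneg_left hΘ hnn0
        _ ≤ 2 * (B * W) := mul_le_mul_of_nonneg_right hnn hBW
    have e2 : B * W ≤ B * (c * σ * N₀) := mul_le_mul_of_nonneg_left h2 hB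
    calc m * N₀ + n / (n - 1) * Θ ≤ m * N₀ + 2 * (B * (c * σ * N₀)) := by linarith
      _ = (m + 2 * (B * (c * σ))) * N₀ := by ring
  have hk3 : (n / ρ * P) / W ≤ m * (m + 2 * (B * (c * σ))) := by
    rw [hN1, mul_div_assoc]
    exact mul_le_mul_of_nonneg_left (hk1.trans hk2) hm0
  have hk4 : m * (2 * (B * (c * σ))) ≤ 2 * c ^ 2 * B := by
    have e1 : 0 ≤ 2 * (B * (c * σ)) := by positivity
    calc m * (2 * (B * (c * σ))) ≤ c / σ * (2 * (B * (c * σ))) :=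
          mul_le_mul_of_nonneg_right hm1 e1
      _ = 2 * c ^ 2 * B := by field_simp
  have hk5 : m ^ 2 ≤ h ^ 2 + (2 * K₂ * c + K₂ ^ 2) := by
    have e1 : m ^ 2 ≤ (h + K₂ * σ) ^ 2 := pow_le_pow_left₀ hm0 hm2 2
    have e2 : h * σ ≤ c := by
      calc h * σ ≤ c / σ * σ := mul_le_mul_of_nonneg_right hh1 hσ.le
        _ = c := by field_simp
    have e3 : K₂ * (h * σ) ≤ K₂ * c := mul_le_mul_of_nonneg_left e2 hK₂0
    have e4 : σ ^ 2 ≤ 1 := by nlinarith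
    have e5 : K₂ ^ 2 * σ ^ 2 ≤ K₂ ^ 2 * 1 := mul_le_mul_of_nonneg_left e4 (by positivity)
    nlinarith
  rw [← hK₂]
  calc (n / ρ * P) / W ≤ m * (m + 2 * (B * (c * σ))) := hk3
    _ = m ^ 2 + m * (2 * (B * (c * σ))) := by ring
    _ ≤ _ := by linarith

/-- the estimate at a fixed time -/
theorem fld_core {M : Type} [TopologicalSpace M] [MeasurableSpace M] (μ : Measure M)
    [IsFiniteMeasure μ] (hI : ∀ g : M → ℝ, Continuous g → Integrable g μ)
    (H u w θ : M → ℝ) (cH : Continuous H) (cu : Continuous u) (cw : Continuous w)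
    (cθ : Continuous θ) (n ρ R c σ K₁ B : ℝ) (hn : 2 ≤ n) (hρ : 0 < ρ)
    (hR : 0 < R) (hc : 0 < c) (hσ : 0 < σ) (hσ1 : σ ≤ 1) (hK₁ : 0 ≤ K₁) (hB : 0 ≤ B)
    (ha : 0 < μ.real univ) (hH0 : ∀ q, 1 ≤ c * σ * H q) (hH1 : ∀ q, H q ≤ c / σ)
    (hu0 : ∀ q, R / 2 ≤ u q) (hu1 : ∀ q, |u q - R| ≤ K₁ * σ ^ 2) (hw : ∀ q, 0 ≤ w q)
    (hθ : ∀ q, θ q ≤ B)
    (e1 : ∫ q, H q * w q ∂μ = n / ρ * ∫ q, u q ∂μ)
    (e2 : ∫ q, (H q ^ 2 - (θ q + H q ^ 2 / n)) * w q ∂μ = (n - 1) / ρ * ∫ q, H q * u q ∂μ) :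
    0 < ∫ q, w q ∂μ ∧ (n / ρ * ∫ q, H q * u q ∂μ) / (∫ q, w q ∂μ)
      ≤ ((∫ q, H q ∂μ) / μ.real univ) ^ 2
        + (2 * (2 * K₁ * c / R) * c + (2 * K₁ * c / R) ^ 2) + 2 * c ^ 2 * B := by
  have hcσ : 0 < c * σ := by positivity
  have hHp : ∀ q, 0 < H q := by
    intro q
    by_contra hneg
    push Not at hneg
    have h3 := hH0 q
    have : c * σ * H q ≤ 0 := mul_nonpos_of_nonneg_of_nonpos hcσ.le hneg
    linarith
  have hup : ∀ q, 0 < u q := fun q => by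
    have h3 := hu0 q
    have : 0 < R / 2 := by positivity
    linarith
  have hconst : ∀ k : ℝ, ∫ _q : M, k ∂μ = k * μ.real univ := by
    intro k
    rw [integral_const]
    simp [mul_comm]
  have iH := hI H cH
  have iu := hI u cu
  have iw := hI w cw
  have iHu := hI (fun q => H q * u q) (cH.mul cu)
  have iHw := hI (fun q => H q * w q) (cH.mul cw)
  have iH2w := hI (fun q => H q ^ 2 * w q) ((cH.pow 2).mul cw)
  have iθw := hI (fun q => θ q * w q) (cθ.mul cw)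
  obtain ⟨a, hadef⟩ : ∃ a : ℝ, a = μ.real univ := ⟨_, rfl⟩
  obtain ⟨h, hhdef⟩ : ∃ h : ℝ, h = (∫ q, H q ∂μ) / μ.real univ := ⟨_, rfl⟩
  have hSa : ∫ q, H q ∂μ = h * μ.real univ := by
    rw [hhdef]
    field_simp
  have hh0 : 0 ≤ h := by
    rw [hhdef]
    exact div_nonneg (integral_nonneg fun q => (hHp q).le) ha.le
  have hS1 : ∫ q, H q ∂μ ≤ c / σ * μ.real univ := by
    rw [← hconst]
    exact integral_mono iH (integrable_const _) hH1
  have hh1 : h ≤ c / σ := by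
    rw [hhdef, div_le_iff₀ ha]
    exact hS1
  have hP2 : ∫ q, H q * u q ∂μ
      ≤ h * (∫ q, u q ∂μ) + K₁ * σ ^ 2 * (c / σ) * μ.real univ := by
    have i1 : Integrable (fun q => (H q - h) * (u q - R)) μ :=
      hI _ ((cH.sub continuous_const).mul (cu.sub continuous_const))
    have i2 : ∫ q, (H q - h) * (u q - R) ∂μ ≤ K₁ * σ ^ 2 * (c / σ) * μ.real univ := by
      rw [← hconst]
      refine integral_mono i1 (integrable_const _) ?_
      intro q
      have j1 : |H q - h| ≤ c / σ := by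
        rw [abs_le]
        constructor
        · have := (hHp q).le
          linarith
        · have := hH1 q
          linarith
      calc (H q - h) * (u q - R) ≤ |(H q - h) * (u q - R)| := le_abs_self _
        _ = |H q - h| * |u q - R| := abs_mul _ _
        _ ≤ (c / σ) * (K₁ * σ ^ 2) := mul_le_mul j1 (hu1 q) (abs_nonneg _) (by positivity)
        _ = K₁ * σ ^ 2 * (c / σ) := by ring
    have i3 : ∫ q, (H q - h) * (u q - R) ∂μ = (∫ q, H q * u q ∂μ) - h * (∫ q, u q ∂μ) := by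
      have j1 : (fun q => (H q - h) * (u q - R))
          = fun q => ((H q * u q - h * u q) - R * H q) + h * R := by
        funext q
        ring
      have i4 : Integrable (fun q => (H q * u q - h * u q) - R * H q) μ :=
        hI _ (((cH.mul cu).sub (continuous_const.mul cu)).sub (continuous_const.mul cH))
      have i5 : Integrable (fun q => H q * u q - h * u q) μ :=
        hI _ ((cH.mul cu).sub (continuous_const.mul cu))
      rw [j1, integral_add i4 (integrable_const _), integral_sub i5 (iH.const_mul R),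
        integral_sub iHu (iu.const_mul h), integral_const_mul, integral_const_mul, hconst, hSa]
      ring
    linarith
  have hCS : (∫ q, H q * w q ∂μ) ^ 2 ≤ (∫ q, w q ∂μ) * ∫ q, H q ^ 2 * w q ∂μ := by
    have hW0 : 0 ≤ ∫ q, w q ∂μ := integral_nonneg hw
    have key : ∀ l k : ℝ, 0 ≤ k ^ 2 * (∫ q, H q ^ 2 * w q ∂μ) - 2 * l * k * (∫ q, H q * w q ∂μ)
        + l ^ 2 * ∫ q, w q ∂μ := by
      intro l k
      have j1 : 0 ≤ ∫ q, (k * H q - l) ^ 2 * w q ∂μ :=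
        integral_nonneg fun q => mul_nonneg (sq_nonneg _) (hw q)
      have j2 : (fun q => (k * H q - l) ^ 2 * w q)
          = fun q => (k ^ 2 * (H q ^ 2 * w q) - 2 * l * k * (H q * w q)) + l ^ 2 * w q := by
        funext q
        ring
      have i4 : Integrable (fun q => k ^ 2 * (H q ^ 2 * w q) - 2 * l * k * (H q * w q)) μ :=
        hI _ ((continuous_const.mul ((cH.pow 2).mul cw)).sub
          (continuous_const.mul (cH.mul cw)))
      rw [j2, integral_add i4 (iw.const_mul _),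
        integral_sub (iH2w.const_mul _) (iHw.const_mul _), integral_const_mul,
        integral_const_mul, integral_const_mul] at j1
      exact j1
    rcases hW0.lt_or_eq with hWp | hWz
    · have j3 := key (∫ q, H q * w q ∂μ) (∫ q, w q ∂μ)
      have j4 : 0 ≤ (∫ q, w q ∂μ) * ((∫ q, w q ∂μ) * (∫ q, H q ^ 2 * w q ∂μ)
          - (∫ q, H q * w q ∂μ) ^ 2) := by
        nlinarith [j3]
      have j5 := nonneg_of_mul_nonneg_right j4 hWp
      linarith
    · have hle : ∫ q, H q * w q ∂μ ≤ c / σ * ∫ q, w q ∂μ := by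
        rw [← integral_const_mul]
        exact integral_mono iHw (iw.const_mul _) fun q =>
          mul_le_mul_of_nonneg_right (hH1 q) (hw q)
      have hge : 0 ≤ ∫ q, H q * w q ∂μ :=
        integral_nonneg fun q => mul_nonneg (hHp q).le (hw q)
      rw [← hWz] at hle ⊢
      have hz : ∫ q, H q * w q ∂μ = 0 := by
        have := hle
        rw [mul_zero] at this
        linarith
      rw [hz]
      simp
  have h8 : (∫ q, H q ^ 2 * w q ∂μ) - ((∫ q, θ q * w q ∂μ) + (∫ q, H q ^ 2 * w q ∂μ) / n)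
      = (n - 1) / ρ * ∫ q, H q * u q ∂μ := by
    rw [← e2]
    have j1 : (fun q => (H q ^ 2 - (θ q + H q ^ 2 / n)) * w q)
        = fun q => H q ^ 2 * w q - (θ q * w q + (1 / n) * (H q ^ 2 * w q)) := by
      funext q
      ring
    have i4 : Integrable (fun q => θ q * w q + (1 / n) * (H q ^ 2 * w q)) μ :=
      hI _ ((cθ.mul cw).add (continuous_const.mul ((cH.pow 2).mul cw)))
    rw [j1, integral_sub iH2w i4,
      integral_add iθw (iH2w.const_mul _), integral_const_mul]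
    ring
  have hU : R / 2 * μ.real univ ≤ ∫ q, u q ∂μ := by
    rw [← hconst]
    exact integral_mono (integrable_const _) iu hu0
  have h1 : ∫ q, H q * w q ∂μ ≤ c / σ * ∫ q, w q ∂μ := by
    rw [← integral_const_mul]
    exact integral_mono iHw (iw.const_mul _) fun q => mul_le_mul_of_nonneg_right (hH1 q) (hw q)
  have h2 : ∫ q, w q ∂μ ≤ c * σ * ∫ q, H q * w q ∂μ := by
    rw [← integral_const_mul]
    refine integral_mono iw (iHw.const_mul _) fun q => ?_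
    calc w q = 1 * w q := (one_mul _).symm
      _ ≤ (c * σ * H q) * w q := mul_le_mul_of_nonneg_right (hH0 q) (hw q)
      _ = c * σ * (H q * w q) := by ring
  have hP0 : 0 ≤ ∫ q, H q * u q ∂μ :=
    integral_nonneg fun q => mul_nonneg (hHp q).le (hup q).le
  have hP1 : ∫ q, H q * u q ∂μ ≤ c / σ * ∫ q, u q ∂μ := by
    rw [← integral_const_mul]
    exact integral_mono iHu (iu.const_mul _) fun q =>
      mul_le_mul_of_nonneg_right (hH1 q) (hup q).le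
  have hS0 : 0 ≤ ∫ q, H q ∂μ := integral_nonneg fun q => (hHp q).le
  have hΘ : ∫ q, θ q * w q ∂μ ≤ B * ∫ q, w q ∂μ := by
    rw [← integral_const_mul]
    exact integral_mono iθw (iw.const_mul _) fun q => mul_le_mul_of_nonneg_right (hθ q) (hw q)
  have := fld_arith n ρ R c σ K₁ B (μ.real univ) (∫ q, u q ∂μ) (∫ q, H q * w q ∂μ)
    (∫ q, w q ∂μ) (∫ q, H q * u q ∂μ) (∫ q, H q ∂μ) (∫ q, H q ^ 2 * w q ∂μ)
    (∫ q, θ q * w q ∂μ) h hn hρ hR hc hσ hσ1 hK₁ hB ha hU e1 h1 h2 hP0 hP1 hS0 hS1 hhdef hP2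
    hΘ hCS h8
  rw [hhdef] at this
  exact this

theorem hFLD (hFII : StFII) (hFBS : StFBS) (hEVF : StEVF) (hMUJ : StMUJ) (hSMF : StSMF)
    (hSMR : StSMR) : StFLD := by
  intro n hn M _ _ _ _ _ _ _ _ T F ν ts ε x C α c χ hd hpu
  have hn1 : 1 ≤ n := le_trans one_le_two hn
  have hnR : (2 : ℝ) ≤ n := by exact_mod_cast hn
  have hn0 : (0 : ℝ) < n := by linarith
  have hfl := hd.d.fl
  have hsF : SetupJ n (Ioo 0 T) F c χ := ⟨hfl.mcf.toIsImmJ, hpu⟩
  have hR : 0 < rr n T := by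
    have := hd.d.T1
    unfold rr
    linarith
  have hC1 := hd.C1
  have hC0 : 0 < C := by linarith
  obtain ⟨R, hRd⟩ : ∃ R : ℝ, R = rr n T := ⟨_, rfl⟩
  obtain ⟨k, hk⟩ : ∃ k : ℝ, k = Real.sqrt C := ⟨_, rfl⟩
  have hk0 : 0 < k := by rw [hk]; exact Real.sqrt_pos.2 hC0
  have hk2 : k ^ 2 = C := by rw [hk]; exact Real.sq_sqrt hC0.le
  obtain ⟨K₁, hK₁⟩ : ∃ K₁ : ℝ, K₁ = n + C ^ 2 := ⟨_, rfl⟩
  have hK₁0 : 0 ≤ K₁ := by rw [hK₁]; positivity
  obtain ⟨K₃, hK₃⟩ : ∃ K₃ : ℝ, K₃ = 2 * (2 * K₁ * k / R) * k + (2 * K₁ * k / R) ^ 2 :=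
    ⟨_, rfl⟩
  have hR0 : 0 < R := by rw [hRd]; exact hR
  have hK₃0 : 0 ≤ K₃ := by rw [hK₃]; positivity
  refine ⟨(n + 1) * (K₃ + 2 * k ^ 2 * C), by positivity, ?_⟩
  intro t ht
  have hts := hd.d.ts0
  have htJ : t ∈ Ioo (0 : ℝ) T := ⟨lt_of_lt_of_le hts.1 ht.1, ht.2⟩
  have hs0 : 0 < T - t := sub_pos.2 ht.2
  have hT1 : T ≤ 1 := by
    have h3 := hd.d.T1
    have h4 : 0 < T := htJ.1.trans htJ.2
    nlinarith
  have hs1 : T - t ≤ 1 := by linarith [htJ.1]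
  obtain ⟨σ, hσd⟩ : ∃ σ : ℝ, σ = Real.sqrt (T - t) := ⟨_, rfl⟩
  have hσ0 : 0 < σ := by rw [hσd]; exact Real.sqrt_pos.2 hs0
  have hσ2 : σ ^ 2 = T - t := by rw [hσd]; exact Real.sq_sqrt hs0.le
  have hσ1 : σ ≤ 1 := by nlinarith
  obtain ⟨fin, hfin⟩ := hMUJ n (n + 2) M (Ioo 0 T) F c χ hsF
  have hμ := hfin.2 t htJ
  have : IsFiniteMeasure (muM n F c χ t) := ⟨hμ.1⟩
  have hI : ∀ g : M → ℝ, Continuous g → Integrable g (muM n F c χ t) :=
    fun g hg => (hμ.2.2 g hg).1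
  obtain ⟨hE1, hE2, hE3⟩ := hEVF n hn1 M (Ioo 0 T) F ν hfl
  have hsm := hSMF n (n + 2) M (Ioo 0 T) F hfl.mcf.toIsImmJ
  have hreg := hSMR n (n + 2) M (Ioo 0 T) F hfl.mcf.toIsImmJ
  have cH : Continuous (fun q => Hs n F ν q t) := ((hreg _ hE1).1 t htJ).1.continuous
  have cw : Continuous (fun q => (inner ℝ (ν q t) x : ℝ)) :=
    ((hreg _ (hE2 x)).1 t htJ).1.continuous
  have cu : Continuous (fun q => (inner ℝ (F q t) x : ℝ)) :=
    ((hreg _ (hsm.2.2.2.2.2.1 x)).1 t htJ).1.continuous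
  have cθ : Continuous (fun q => thN n F q t) :=
    ((hreg _ hsm.2.2.2.2.1).1 t htJ).1.continuous
  obtain ⟨f1, f2, f3, f4, f5⟩ := hFII n hn1 M (Ioo 0 T) F ν c χ hfl hpu t htJ x
  have hρ : 0 < rr n t := hfl.r0 t htJ
  obtain ⟨ρ, hρd⟩ : ∃ ρ : ℝ, ρ = rr n t := ⟨_, rfl⟩
  have hbs := hFBS n hn1 M T F ν ts ε hd.d t ht
  have heq : ∀ q, eN n F q t = Hs n F ν q t ^ 2 := fun q => (hE3 q t htJ).2.1
  have hHpos : ∀ q, 0 < Hs n F ν q t := by
    intro q
    have h3 := (hbs q q).1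
    have : 0 < n * ε := mul_pos hn0 hd.d.ε0
    linarith
  have hH0 : ∀ q, 1 ≤ k * σ * Hs n F ν q t := by
    intro q
    have h3 := hd.lo t ht q
    rw [heq q, ← hσ2, ← hk2] at h3
    have h4 : 1 ≤ (k * σ * Hs n F ν q t) ^ 2 := by
      calc (1 : ℝ) ≤ k ^ 2 * (σ ^ 2 * Hs n F ν q t ^ 2) := h3
        _ = _ := by ring
    have h5 : 0 ≤ k * σ * Hs n F ν q t := by
      have := (hHpos q).le
      positivity
    by_contra hneg
    push Not at hneg
    have h6 : (k * σ * Hs n F ν q t) ^ 2 < 1 := by nlinarith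
    linarith
  have hH1 : ∀ q, Hs n F ν q t ≤ k / σ := by
    intro q
    rw [le_div_iff₀ hσ0]
    have h3 := hd.up t ht q
    rw [heq q, ← hσ2, ← hk2] at h3
    have h4 : (Hs n F ν q t * σ) ^ 2 ≤ k ^ 2 := by
      calc (Hs n F ν q t * σ) ^ 2 = σ ^ 2 * Hs n F ν q t ^ 2 := by ring
        _ ≤ k ^ 2 := h3
    exact (abs_le_of_sq_le_sq' h4 hk0.le).2
  have hu0 : ∀ q, R / 2 ≤ (inner ℝ (F q t) x : ℝ) := by
    intro q
    rw [hRd]
    exact hd.px t ht q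
  have hu1 : ∀ q, |(inner ℝ (F q t) x : ℝ) - R| ≤ K₁ * σ ^ 2 := by
    intro q
    have h3 := hfl.sph q t htJ
    have h4 : ‖F q t - x‖ ^ 2 = ‖F q t‖ ^ 2 - 2 * (inner ℝ (F q t) x : ℝ) + ‖x‖ ^ 2 :=
      norm_sub_sq_real _ _
    have h5 := hd.x2
    have h6 : ‖F q t - x‖ ^ 2 ≤ C ^ 2 * σ ^ 2 := by
      have := hd.li t ht q
      rw [← hσd] at this
      calc ‖F q t - x‖ ^ 2 ≤ (C * σ) ^ 2 := pow_le_pow_left₀ (norm_nonneg _) this 2
        _ = _ := by ring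
    have h7 : 0 ≤ ‖F q t - x‖ ^ 2 := sq_nonneg _
    have h8 : rr n t = R + 2 * n * σ ^ 2 := by
      rw [hRd, hσ2]
      unfold rr
      ring
    have h9 : (inner ℝ (F q t) x : ℝ) - R = n * σ ^ 2 - ‖F q t - x‖ ^ 2 / 2 := by
      rw [← hRd] at h5
      linarith
    have hσσ : 0 ≤ σ ^ 2 := sq_nonneg _
    have hCσ : 0 ≤ C ^ 2 * σ ^ 2 := by positivity
    have hnσ : 0 ≤ n * σ ^ 2 := by positivity
    rw [h9, abs_le, hK₁]
    constructor
    · nlinarith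
    · nlinarith
  have hw : ∀ q, 0 ≤ (inner ℝ (ν q t) x : ℝ) := hd.nx t ht
  obtain ⟨B, hBd⟩ : ∃ B : ℝ, B = C * (T - t) ^ (α - 1) := ⟨_, rfl⟩
  have hpow0 : 0 < (T - t) ^ (α - 1) := Real.rpow_pos_of_pos hs0 _
  have hpow1 : 1 ≤ (T - t) ^ (α - 1) :=
    Real.one_le_rpow_of_pos_of_le_one_of_nonpos hs0 hs1 (by linarith [hd.α1])
  have hB0 : 0 ≤ B := by rw [hBd]; positivity
  have hθ : ∀ q, thN n F q t ≤ B := by
    intro q
    rw [hBd]
    exact hd.th t ht q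
  have ha : 0 < (muM n F c χ t).real univ := f5
  have e1 : ∫ q, Hs n F ν q t * (inner ℝ (ν q t) x : ℝ) ∂muM n F c χ t
      = n / ρ * ∫ q, (inner ℝ (F q t) x : ℝ) ∂muM n F c χ t := by
    rw [hρd]
    exact f1
  have e2 : ∫ q, (Hs n F ν q t ^ 2 - (thN n F q t + Hs n F ν q t ^ 2 / n))
        * (inner ℝ (ν q t) x : ℝ) ∂muM n F c χ t
      = (n - 1) / ρ * ∫ q, Hs n F ν q t * (inner ℝ (F q t) x : ℝ) ∂muM n F c χ t := by
    rw [hρd, ← f2]
    congr 1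
    funext q
    have h3 := (hbs q q).2.2.2.2.2.2.2.2
    rw [heq q] at h3
    rw [h3]
  obtain ⟨hW0, hmain⟩ := fld_core (muM n F c χ t) hI (fun q => Hs n F ν q t)
    (fun q => (inner ℝ (F q t) x : ℝ)) (fun q => (inner ℝ (ν q t) x : ℝ))
    (fun q => thN n F q t) cH cu cw cθ n ρ R k σ K₁ B hnR (by rw [hρd]; exact hρ) hR0 hk0 hσ0
    hσ1 hK₁0 hB0 ha hH0 hH1 hu0 hu1 hw hθ e1 e2
  have hWi : 0 < wiN n F ν c χ x t := hW0
  have hvr : vrN n F ν c χ t
      = (∫ q, Hs n F ν q t ^ 2 ∂muM n F c χ t) / arN n F c χ t - hbN n F ν c χ t ^ 2 := by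
    have hS : ∫ q, Hs n F ν q t ∂muM n F c χ t = hbN n F ν c χ t * arN n F c χ t := by
      unfold hbN
      field_simp
    have j1 : (fun q => (Hs n F ν q t - hbN n F ν c χ t) ^ 2)
        = fun q => (Hs n F ν q t ^ 2 - 2 * hbN n F ν c χ t * Hs n F ν q t)
          + hbN n F ν c χ t ^ 2 := by
      funext q
      ring
    have i1 : Integrable (fun q => Hs n F ν q t ^ 2) (muM n F c χ t) := hI _ (cH.pow 2)
    have i2 : Integrable (fun q => Hs n F ν q t) (muM n F c χ t) := hI _ cH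
    have i3 : Integrable (fun q => Hs n F ν q t ^ 2 - 2 * hbN n F ν c χ t * Hs n F ν q t)
        (muM n F c χ t) := hI _ ((cH.pow 2).sub (continuous_const.mul cH))
    have j2 : ∫ q, (Hs n F ν q t - hbN n F ν c χ t) ^ 2 ∂muM n F c χ t
        = (∫ q, Hs n F ν q t ^ 2 ∂muM n F c χ t)
          - hbN n F ν c χ t ^ 2 * arN n F c χ t := by
      rw [j1, integral_add i3 (integrable_const _), integral_sub i1 (i2.const_mul _),
        integral_const_mul, hS, integral_const]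
      unfold arN
      simp only [smul_eq_mul]
      ring
    unfold vrN
    rw [j2]
    field_simp
  refine ⟨hWi, f5, ?_, (n + 1) * ((-(∫ q, Hs n F ν q t ^ 2 ∂muM n F c χ t)
      - n ^ 2 / rr n t * arN n F c χ t) / arN n F c χ t)
      - n * ((-((n + 1) / rr n t * ∫ q, Hs n F ν q t * (inner ℝ (F q t) x : ℝ) ∂muM n F c χ t)
        - n ^ 2 / rr n t * wiN n F ν c χ x t) / wiN n F ν c χ x t), ?_, ?_⟩
  · unfold vrN
    exact div_nonneg (integral_nonneg fun q => sq_nonneg _) f5.le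
  · unfold lyN
    exact ((f4.log f5.ne').const_mul _).sub ((f3.log hWi.ne').const_mul _)
  · have hb : (∫ q, Hs n F ν q t ∂muM n F c χ t) / (muM n F c χ t).real univ
        = hbN n F ν c χ t := rfl
    rw [hb, ← hK₃, hρd] at hmain
    have hmain' : (n / rr n t * ∫ q, Hs n F ν q t * (inner ℝ (F q t) x : ℝ) ∂muM n F c χ t)
        / wiN n F ν c χ x t ≤ hbN n F ν c χ t ^ 2 + K₃ + 2 * k ^ 2 * B := hmain
    obtain ⟨P, hP⟩ : ∃ P : ℝ, P = ∫ q, Hs n F ν q t * (inner ℝ (F q t) x : ℝ) ∂muM n F c χ t :=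
      ⟨_, rfl⟩
    obtain ⟨Q, hQ⟩ : ∃ Q : ℝ, Q = ∫ q, Hs n F ν q t ^ 2 ∂muM n F c χ t := ⟨_, rfl⟩
    obtain ⟨W, hWd⟩ : ∃ W : ℝ, W = wiN n F ν c χ x t := ⟨_, rfl⟩
    obtain ⟨a, had⟩ : ∃ a : ℝ, a = arN n F c χ t := ⟨_, rfl⟩
    rw [hvr, ← hQ, ← hP, ← hWd, ← had]
    rw [← hP, ← hWd] at hmain'
    have hW' : 0 < W := by rw [hWd]; exact hWi
    have ha' : 0 < a := by rw [had]; exact f5
    have h3 : (n + 1) * ((-Q - n ^ 2 / rr n t * a) / a)
        - n * ((-((n + 1) / rr n t * P) - n ^ 2 / rr n t * W) / W)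
        = -((n + 1) * (Q / a)) + (n + 1) * ((n / rr n t * P) / W) - n ^ 2 / rr n t := by
      field_simp
      ring
    rw [h3]
    have h4 : 0 ≤ (n : ℝ) ^ 2 / rr n t := by positivity
    have h5 : (n + 1 : ℝ) * ((n / rr n t * P) / W)
        ≤ (n + 1) * (hbN n F ν c χ t ^ 2 + K₃ + 2 * k ^ 2 * B) :=
      mul_le_mul_of_nonneg_left hmain' (by positivity)
    have h6 : K₃ * 1 ≤ K₃ * (T - t) ^ (α - 1) := mul_le_mul_of_nonneg_left hpow1 hK₃0
    have h7 : (n + 1 : ℝ) * (K₃ * 1) ≤ (n + 1) * (K₃ * (T - t) ^ (α - 1)) :=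
      mul_le_mul_of_nonneg_left h6 (by positivity)
    calc -((n + 1 : ℝ) * (Q / a)) + (n + 1) * ((n / rr n t * P) / W) - n ^ 2 / rr n t
        ≤ -((n + 1) * (Q / a)) + (n + 1) * (hbN n F ν c χ t ^ 2 + K₃ + 2 * k ^ 2 * B) := by
          linarith
      _ = -((n + 1) * (Q / a - hbN n F ν c χ t ^ 2)) + (n + 1) * (K₃ * 1)
          + (n + 1) * (2 * k ^ 2 * B) := by ring
      _ ≤ -((n + 1) * (Q / a - hbN n F ν c χ t ^ 2)) + (n + 1) * (K₃ * (T - t) ^ (α - 1))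
          + (n + 1) * (2 * k ^ 2 * B) := by linarith
      _ = -((n + 1) * (Q / a - hbN n F ν c χ t ^ 2))
          + (n + 1) * (K₃ + 2 * k ^ 2 * C) * (T - t) ^ (α - 1) := by
          rw [hBd]
          ring

end Helper40.HSF
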