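import Mathlib
import Pool.Agent.Helper35.HSF.StB

/-!
Project HSF (MP_925021_gt), module TP1: the maximum principle with two barriers, no touching.
-/

set_option autoImplicit false

namespace Helper40.HSF

open Helper35.HSF Helper35.MS Helper35.PI Helper35.PI2 Helper32.CL
open scoped ContDiff Manifold Topology ENNReal BigOperators
open MeasureTheory Set Filter

/-- functions of time only -/
theorem time_only (hJA : StJA) (n : ℕ) (g : ℝ → ℝ) (t₀ g' : ℝ) (hg : ContDiffAt ℝ 2 g t₀)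
    (hg' : HasDerivAt g g' t₀) :
    ContDiffAt ℝ 2 (fun z : EE n × ℝ => g z.2) ((0 : EE n), t₀) ∧
    (∀ k, jg (fun z : EE n × ℝ => g z.2) ((0 : EE n), t₀) k = 0) ∧
    jh (fun z : EE n × ℝ => g z.2) ((0 : EE n), t₀) = g' := by
  have hC : ContDiffAt ℝ 2 (fun z : EE n × ℝ => g z.2) ((0 : EE n), t₀) :=
    ContDiffAt.comp ((0 : EE n), t₀) (by exact hg) contDiffAt_snd
  have hd : ∀ᶠ s in 𝓝 t₀, DifferentiableAt ℝ g s := by
    filter_upwards [hg.eventually (by simp)] with s hs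
    exact hs.differentiableAt (by norm_num)
  have hf : ∀ z : EE n × ℝ, DifferentiableAt ℝ g z.2 → ∀ v : EE n × ℝ,
      fderiv ℝ (fun z : EE n × ℝ => g z.2) z v = fderiv ℝ g z.2 v.2 := by
    intro z hz v
    have : HasFDerivAt (fun z : EE n × ℝ => g z.2)
        ((fderiv ℝ g z.2).comp (ContinuousLinearMap.snd ℝ (EE n) ℝ)) z :=
      hz.hasFDerivAt.comp z hasFDerivAt_snd
    rw [this.fderiv]; rfl
  have h0 : ∀ᶠ z in 𝓝 ((0 : EE n), t₀), DifferentiableAt ℝ g z.2 :=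
    (continuous_snd.tendsto ((0 : EE n), t₀)).eventually hd
  have h1 : ∀ k, (fun z' => jg (fun z : EE n × ℝ => g z.2) z' k)
      =ᶠ[𝓝 ((0 : EE n), t₀)] fun _ => 0 := by
    intro k
    filter_upwards [h0] with z hz
    unfold jg
    rw [hf z hz]; simp
  refine ⟨hC, fun k => (h1 k).self_of_nhds, ?_⟩
  obtain ⟨hloc, hconst, -⟩ := hJA n ℝ ((0 : EE n), t₀)
  have h2 : ∀ i j, jgg (fun z : EE n × ℝ => g z.2) ((0 : EE n), t₀) i j = 0 := by
    intro i j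
    unfold jgg
    rw [(hloc _ _ (h1 j)).1 i]
    exact (hconst 0).1 i
  unfold jh
  simp only [h2, Finset.sum_const_zero, sub_zero]
  unfold jt
  rw [hf _ h0.self_of_nhds]
  change fderiv ℝ g t₀ 1 = g'
  rw [hg'.hasFDerivAt.fderiv]; simp

theorem hTP1 (hSLB : StSLB) (hTAL : StTAL) (hNEG : StNEG) (hMP : StMP) (hJA : StJA)
    (hJB : StJB) : StTP1 := by
  have main : ∀ (n : ℕ) (M : Type) [TopologicalSpace M] [ChartedSpace (EE n) M]
      [IsManifold (𝓡 n) ∞ M] (J : Set ℝ) (F ν : M → ℝ → EE (n + 2)), HFl n J F ν →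
      ∀ (x₀ : M) (t₀ : ℝ), t₀ ∈ J → ∀ (k : ℝ → ℝ) (k' : ℝ), ContDiffAt ℝ 2 k t₀ →
      HasDerivAt k k' t₀ → 0 < k' → 0 < k t₀ → k t₀ ≤ 1 →
      ∀ z₁ ∈ ZS n F ν x₀ t₀, ∀ z₂ ∈ ZS n F ν x₀ t₀,
      (1 - k t₀) * z₁ ^ 2 - z₁ * z₂ = k t₀ / rr n t₀ → 0 < z₁ →
      ¬ (∀ᶠ p : M × ℝ in 𝓝 (x₀, t₀), p.2 ≤ t₀ → ∀ z₁ ∈ ZS n F ν p.1 p.2,
        ∀ z₂ ∈ ZS n F ν p.1 p.2, (1 - k p.2) * z₁ ^ 2 - z₁ * z₂ ≤ k p.2 / rr n p.2) := by
    intro n M _ _ _ J F ν hF x₀ t₀ ht k k' hkC hk' hk'0 hk0 hk1 P hPm Q hQm hPQ hP hev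
    have hrr := hF.r0 t₀ ht
    obtain ⟨r, hr⟩ : ∃ r, r = 1 / rr n t₀ := ⟨_, rfl⟩
    have hr0 : 0 < r := by rw [hr]; positivity
    have hkr : 0 < k t₀ * r := mul_pos hk0 hr0
    have hPQ' : (1 - k t₀) * P ^ 2 - P * Q = k t₀ * r := by rw [hPQ, hr]; ring
    have hpt : ∀ w₁ ∈ ZS n F ν x₀ t₀, ∀ w₂ ∈ ZS n F ν x₀ t₀,
        (1 - k t₀) * w₁ ^ 2 - w₁ * w₂ ≤ k t₀ * r := by
      intro w₁ h₁ w₂ h₂
      have := hev.self_of_nhds le_rfl w₁ h₁ w₂ h₂
      have e : k t₀ / rr n t₀ = k t₀ * r := by rw [hr]; ring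
      rw [← e]; exact this
    have hext : ∀ z ∈ ZS n F ν x₀ t₀, Q ≤ z ∧ z ≤ P := by
      intro z hz
      constructor
      · have h1 := hpt P hPm z hz
        by_contra hcon
        push Not at hcon
        nlinarith
      · have h1 := hpt z hz Q hQm
        by_contra hcon
        push Not at hcon
        have h2 : P * ((1 - k t₀) * z ^ 2 - z * Q - k t₀ * r)
            = (1 - k t₀) * P * z * (z - P) + k t₀ * r * (z - P) := by
          linear_combination z * hPQ'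
        have h3 : 0 ≤ (1 - k t₀) * P * z * (z - P) :=
          mul_nonneg (mul_nonneg (mul_nonneg (by linarith) hP.le) (by linarith)) (by linarith)
        have h4 : 0 < k t₀ * r * (z - P) := mul_pos hkr (by linarith)
        have h5 : P * ((1 - k t₀) * z ^ 2 - z * Q - k t₀ * r) ≤ 0 :=
          mul_nonpos_of_nonneg_of_nonpos hP.le (by linarith)
        linarith
    have hQP : Q < P := by
      by_contra hcon
      push Not at hcon
      have : P * (P - Q) = k t₀ * P ^ 2 + k t₀ * r := by linarith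
      have h1 : P * (P - Q) ≤ 0 := mul_nonpos_of_nonneg_of_nonpos hP.le (by linarith)
      have h2 : 0 < k t₀ * P ^ 2 := by positivity
      linarith
    obtain ⟨hG, -, hHP, θ, β, γ, hθ0, hθc, hβC, hβ0, hγC, hγ0, hmem, hjβ, hjγ⟩ :=
      hSLB n M J F ν hF x₀ t₀ ht P hPm Q hQm hQP hext
    -- the functions of time
    obtain ⟨hκC, hκg, hκh⟩ := time_only hJA n k t₀ k' hkC hk'
    have hrC : ContDiffAt ℝ 2 (fun s => 1 / rr n s) t₀ := by
      unfold rr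
      apply ContDiffAt.div contDiffAt_const
      · fun_prop
      · exact hrr.ne'
    have hrD : HasDerivAt (fun s => 1 / rr n s) (2 * n * r ^ 2) t₀ := by
      have h1 : HasDerivAt (fun s => rr n s) (-(2 * n)) t₀ := by
        unfold rr
        simpa using ((hasDerivAt_id t₀).const_mul (2 * (n : ℝ))).const_sub 1
      have h2 := h1.inv hrr.ne'
      have e1 : (fun s => 1 / rr n s) = (fun s => rr n s)⁻¹ := by
        funext s; simp
      have e2 : 2 * (n : ℝ) * r ^ 2 = -(-(2 * (n : ℝ))) / rr n t₀ ^ 2 := by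
        rw [hr]; field_simp
      rw [e1, e2]
      exact h2
    obtain ⟨hsC, hsg, hsh⟩ := time_only hJA n (fun s => 1 / rr n s) t₀ _ hrC hrD
    obtain ⟨hloc, hconst, hlin, -, -⟩ := hJA n ℝ ((0 : EE n), t₀)
    obtain ⟨hprod, -⟩ := hJB n 0 ((0 : EE n), t₀)
    obtain ⟨a, ha⟩ : ∃ a : Fin n → ℝ, a = fun i => jg β (0, t₀) i := ⟨_, rfl⟩
    obtain ⟨b, hb⟩ : ∃ b : Fin n → ℝ, b = fun i => jg γ (0, t₀) i := ⟨_, rfl⟩
    -- the products
    have hbbC : ContDiffAt ℝ 2 (fun z => β z * β z) ((0 : EE n), t₀) := hβC.mul hβC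
    have hbcC : ContDiffAt ℝ 2 (fun z => β z * γ z) ((0 : EE n), t₀) := hβC.mul hγC
    have hkbC : ContDiffAt ℝ 2 (fun z : EE n × ℝ => k z.2 * (β z * β z)) ((0 : EE n), t₀) :=
      hκC.mul hbbC
    have hkrC : ContDiffAt ℝ 2 (fun z : EE n × ℝ => k z.2 * (1 / rr n z.2)) ((0 : EE n), t₀) :=
      hκC.mul hsC
    obtain ⟨Φ, hΦ⟩ : ∃ Φ : EE n × ℝ → ℝ, Φ = fun z =>
      (((β z * β z - k z.2 * (β z * β z)) - β z * γ z) - k z.2 * (1 / rr n z.2)) := ⟨_, rfl⟩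
    have h1C : ContDiffAt ℝ 2 (fun z : EE n × ℝ => β z * β z - k z.2 * (β z * β z))
        ((0 : EE n), t₀) := hbbC.sub hkbC
    have h2C : ContDiffAt ℝ 2 (fun z : EE n × ℝ => (β z * β z - k z.2 * (β z * β z)) - β z * γ z)
        ((0 : EE n), t₀) := h1C.sub hbcC
    have hΦC : ContDiffAt ℝ 2 Φ ((0 : EE n), t₀) := by
      rw [hΦ]; exact h2C.sub hkrC
    have hΦ0 : Φ ((0 : EE n), t₀) = 0 := by
      rw [hΦ]
      simp only [hβ0, hγ0]
      have e : k t₀ * (1 / rr n t₀) = k t₀ * r := by rw [hr]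
      rw [e]; linarith
    have hmax : ∀ᶠ z in 𝓝 ((0 : EE n), t₀), z.2 ≤ t₀ → Φ z ≤ Φ ((0 : EE n), t₀) := by
      have hc : Tendsto (fun z : EE n × ℝ => (θ z, z.2)) (𝓝 ((0 : EE n), t₀)) (𝓝 (x₀, t₀)) := by
        have h1 : Tendsto θ (𝓝 ((0 : EE n), t₀)) (𝓝 x₀) := by
          rw [← hθ0]; exact hθc
        rw [nhds_prod_eq (x := x₀)]
        exact h1.prodMk (continuous_snd.tendsto ((0 : EE n), t₀))
      filter_upwards [hc.eventually hev, hmem] with z hz hz2 hzt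
      have h3 := hz hzt (β z) hz2.1 (γ z) hz2.2
      rw [hΦ0, hΦ]
      have e : k z.2 * (1 / rr n z.2) = k z.2 / rr n z.2 := by ring
      simp only [e]
      linarith
    obtain ⟨hg0, hh0⟩ := hMP n 0 t₀ Φ hΦC hmax
    -- gradients
    have hgrad : ∀ i, jg Φ ((0 : EE n), t₀) i
        = 2 * (1 - k t₀) * P * a i - Q * a i - P * b i := by
      intro i
      rw [hΦ, (hlin _ _ h2C hkrC).2.2.1 i, (hlin _ _ h1C hbcC).2.2.1 i,
        (hlin _ _ hbbC hkbC).2.2.1 i, (hprod _ _ hκC hsC).1 i, (hprod _ _ hκC hbbC).1 i,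
        (hprod _ _ hβC hβC).1 i, (hprod _ _ hβC hγC).1 i, hκg i, hsg i, hβ0, hγ0, ha, hb]
      ring
    have hheat : jh Φ ((0 : EE n), t₀)
        = (2 * (1 - k t₀) * P - Q) * jh β ((0 : EE n), t₀) - P * jh γ ((0 : EE n), t₀)
          - 2 * (1 - k t₀) * (∑ i, a i ^ 2) + 2 * (∑ i, a i * b i)
          - k' * (P ^ 2 + r) - 2 * n * k t₀ * r ^ 2 := by
      rw [hΦ, (hlin _ _ h2C hkrC).2.2.2, (hlin _ _ h1C hbcC).2.2.2,
        (hlin _ _ hbbC hkbC).2.2.2, (hprod _ _ hκC hsC).2, (hprod _ _ hκC hbbC).2,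
        (hprod _ _ hβC hβC).2, (hprod _ _ hβC hγC).2]
      simp only [hκg, hsg, zero_mul, Finset.sum_const_zero, mul_zero, sub_zero, hκh, hsh, hβ0,
        hγ0]
      have e1 : ∑ i, jg β ((0 : EE n), t₀) i * jg β ((0 : EE n), t₀) i = ∑ i, a i ^ 2 := by
        apply Finset.sum_congr rfl
        intro i _
        rw [ha]; ring
      have e2 : ∑ i, jg β ((0 : EE n), t₀) i * jg γ ((0 : EE n), t₀) i = ∑ i, a i * b i := by
        apply Finset.sum_congr rfl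
        intro i _
        rw [ha, hb]
      rw [e1, e2, ← hr]
      ring
    have hfin := (hTAL n (k t₀) k' r P Q (Hs n F ν x₀ t₀) (h2N n F x₀ t₀) (jh β ((0 : EE n), t₀))
      (jh γ ((0 : EE n), t₀)) a b hk0 hk1 hk'0 hr0 hP hPQ' hHP hG (by
        intro i
        have := hgrad i
        rw [hg0 i] at this
        linarith) (by
        rw [ha, hr]
        have e : 2 * Hs n F ν x₀ t₀ * (1 / rr n t₀) = 2 * Hs n F ν x₀ t₀ / rr n t₀ := by ring
        rw [e]; exact hjβ) (by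
        rw [hb, hr]
        have e : 2 * Hs n F ν x₀ t₀ * (1 / rr n t₀) = 2 * Hs n F ν x₀ t₀ / rr n t₀ := by ring
        rw [e]; exact hjγ)).2
    rw [hheat] at hh0
    linarith
  intro n M _ _ _ J F ν hF x₀ t₀ ht k k' hkC hk' hk'0 hk0 hk1 z₁ hz₁ z₂ hz₂ heq
  have hrr := hF.r0 t₀ ht
  rcases lt_trichotomy z₁ 0 with hneg | h0 | hpos
  · obtain ⟨h1, -, h3⟩ := hNEG n M F ν (fun q t => -ν q t) rfl
    intro hev
    refine main n M J F (fun q t => -ν q t) (h1 J hF) x₀ t₀ ht k k' hkC hk' hk'0 hk0 hk1 (-z₁)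
      ?_ (-z₂) ?_ (by rw [← heq]; ring) (by linarith) ?_
    · rw [(h3 x₀ t₀).1]; exact ⟨z₁, hz₁, rfl⟩
    · rw [(h3 x₀ t₀).1]; exact ⟨z₂, hz₂, rfl⟩
    · filter_upwards [hev] with p hp hpt w₁ hw₁ w₂ hw₂
      rw [(h3 p.1 p.2).1] at hw₁ hw₂
      obtain ⟨v₁, hv₁, rfl⟩ := hw₁
      obtain ⟨v₂, hv₂, rfl⟩ := hw₂
      have := hp hpt v₁ hv₁ v₂ hv₂
      calc (1 - k p.2) * (-v₁) ^ 2 - -v₁ * -v₂ = (1 - k p.2) * v₁ ^ 2 - v₁ * v₂ := by ring
        _ ≤ _ := this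
  · exfalso
    rw [h0] at heq
    have : 0 < k t₀ / rr n t₀ := div_pos hk0 hrr
    rw [← heq] at this
    norm_num at this
  · exact main n M J F ν hF x₀ t₀ ht k k' hkC hk' hk'0 hk0 hk1 z₁ hz₁ z₂ hz₂ heq hpos

end Helper40.HSF
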