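import Mathlib
import Pool.Agent.Helper35.HSF.StA

/-!
Project HSF (MP_925021_gt), module WEI: the shape operator, derivatives of the unit normal in charts,
spectral inequality.
-/

set_option autoImplicit false

namespace Helper40.HSF

open Helper35.HSF Helper35.MS Helper35.PI Helper35.PI2 Helper32.CL
open scoped ContDiff Manifold Topology ENNReal BigOperators
open MeasureTheory Set Filter

/-- the linear algebra: two linear maps `A, B : V → E`, `A` injective, `range B ⊆ range A`,
`⟨Bu, Av⟩ = ⟨Au, Bv⟩`, with the values `⟨Bv,Av⟩` at `|Av| = 1` in `(lo,hi)`. -/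
theorem spec {V E : Type} [AddCommGroup V] [Module ℝ V] [FiniteDimensional ℝ V]
    [NormedAddCommGroup E] [InnerProductSpace ℝ E]
    (A B : V →ₗ[ℝ] E) (hA : Function.Injective A) (hB : ∀ v, B v ∈ LinearMap.range A)
    (hs : ∀ u v, (inner ℝ (B u) (A v) : ℝ) = inner ℝ (A u) (B v))
    (lo hi : ℝ) (hv : ∀ v, ‖A v‖ = 1 → lo < (inner ℝ (B v) (A v) : ℝ) ∧
      (inner ℝ (B v) (A v) : ℝ) < hi)
    (a₁ b₁ a₂ b₂ : ℝ) (hP : ∀ κ, lo < κ → κ < hi → 0 < (a₁ + b₁ * κ) * (a₂ + b₂ * κ))
    (v : V) (hv0 : v ≠ 0) :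
    0 < (inner ℝ (a₁ • A v + b₁ • B v) (a₂ • A v + b₂ • B v) : ℝ) := by
  obtain ⟨T, hT⟩ : ∃ T : Submodule ℝ E, T = LinearMap.range A := ⟨_, rfl⟩
  have hBT : ∀ v, B v ∈ T := fun v => hT ▸ hB v
  have hAT : ∀ v, A v ∈ T := fun v => hT ▸ LinearMap.mem_range_self A v
  have : FiniteDimensional ℝ T := by rw [hT]; infer_instance
  obtain ⟨A', hA'⟩ : ∃ A' : V →ₗ[ℝ] T, A' = A.codRestrict T hAT := ⟨_, rfl⟩
  obtain ⟨B', hB'⟩ : ∃ B' : V →ₗ[ℝ] T, B' = B.codRestrict T hBT := ⟨_, rfl⟩
  have hA'v : ∀ v, ((A' v : T) : E) = A v := fun v => by rw [hA']; rfl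
  have hB'v : ∀ v, ((B' v : T) : E) = B v := fun v => by rw [hB']; rfl
  have hbij : Function.Bijective A' := by
    constructor
    · intro u w huw
      apply hA
      rw [← hA'v, ← hA'v, huw]
    · rintro ⟨x, hx⟩
      have hx' := hx
      rw [hT] at hx'
      obtain ⟨u, hu⟩ := hx'
      refine ⟨u, ?_⟩
      apply Subtype.ext
      rw [hA'v, hu]
  obtain ⟨e, he⟩ : ∃ e : V ≃ₗ[ℝ] T, ∀ v, e v = A' v :=
    ⟨LinearEquiv.ofBijective A' hbij, fun v => rfl⟩
  obtain ⟨W, hW⟩ : ∃ W : T →ₗ[ℝ] T, W = B' ∘ₗ e.symm.toLinearMap := ⟨_, rfl⟩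
  have hWA : ∀ u, W (A' u) = B' u := by
    intro u
    rw [hW, LinearMap.comp_apply, ← he u]
    simp
  have hsym : W.IsSymmetric := by
    intro x y
    obtain ⟨u, rfl⟩ := hbij.2 x
    obtain ⟨w, rfl⟩ := hbij.2 y
    rw [hWA, hWA, Submodule.coe_inner, Submodule.coe_inner, hA'v, hA'v, hB'v, hB'v]
    exact hs u w
  obtain ⟨bb, hbb⟩ : ∃ bb : OrthonormalBasis (Fin (Module.finrank ℝ T)) ℝ T,
    ∃ κ : Fin (Module.finrank ℝ T) → ℝ, ∀ i, W (bb i) = κ i • bb i :=
    ⟨hsym.eigenvectorBasis rfl, hsym.eigenvalues rfl, fun i => hsym.apply_eigenvectorBasis rfl i⟩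
  obtain ⟨κ, hκ⟩ := hbb
  have hκv : ∀ i, lo < κ i ∧ κ i < hi := by
    intro i
    obtain ⟨u, hu⟩ := hbij.2 (bb i)
    have h1 : ‖A u‖ = 1 := by
      rw [← hA'v, hu, ← Submodule.coe_norm]
      exact bb.orthonormal.1 i
    have h2 : (inner ℝ (B u) (A u) : ℝ) = κ i := by
      rw [← hA'v, ← hB'v, ← Submodule.coe_inner, ← hWA, hu, hκ i, inner_smul_left]
      have : (inner ℝ (bb i) (bb i) : ℝ) = 1 := by
        rw [real_inner_self_eq_norm_sq, bb.orthonormal.1 i]; norm_num
      rw [this]; simp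
    rw [← h2]
    exact hv u h1
  obtain ⟨x, hx⟩ : ∃ x : T, x = A' v := ⟨_, rfl⟩
  have hx0 : x ≠ 0 := by
    intro h0
    apply hv0
    apply hbij.1
    rw [← hx, h0, map_zero]
  have hkey : ∀ a b : ℝ, ∀ i, (inner ℝ (bb i) (a • x + b • W x) : ℝ)
      = (a + b * κ i) * inner ℝ (bb i) x := by
    intro a b i
    rw [inner_add_right, inner_smul_right, inner_smul_right, ← hsym (bb i) x, hκ i,
      inner_smul_left]
    simp only [conj_trivial]
    ring
  have h3 : (inner ℝ (a₁ • A v + b₁ • B v) (a₂ • A v + b₂ • B v) : ℝ)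
      = inner ℝ (a₁ • x + b₁ • W x) (a₂ • x + b₂ • W x) := by
    rw [Submodule.coe_inner, hx, hWA]
    simp only [Submodule.coe_add, Submodule.coe_smul, hA'v, hB'v]
  rw [h3, ← bb.sum_inner_mul_inner]
  have h4 : ∀ i, (inner ℝ (a₁ • x + b₁ • W x) (bb i) : ℝ) * inner ℝ (bb i) (a₂ • x + b₂ • W x)
      = (a₁ + b₁ * κ i) * (a₂ + b₂ * κ i) * (inner ℝ (bb i) x) ^ 2 := by
    intro i
    rw [real_inner_comm, hkey, hkey]; ring
  simp only [h4]
  have h5 : ∃ i, (inner ℝ (bb i) x : ℝ) ≠ 0 := by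
    by_contra hcon
    push Not at hcon
    apply hx0
    rw [← bb.sum_repr x]
    apply Finset.sum_eq_zero
    intro i _
    rw [bb.repr_apply_apply, hcon i, zero_smul]
  obtain ⟨i₀, hi₀⟩ := h5
  apply Finset.sum_pos'
  · intro i _
    exact mul_nonneg (hP _ (hκv i).1 (hκv i).2).le (sq_nonneg _)
  · refine ⟨i₀, Finset.mem_univ _, ?_⟩
    exact mul_pos (hP _ (hκv i₀).1 (hκv i₀).2) (by positivity)

theorem fderiv_sum {n N : ℕ} (f : EE n → EE N) (z u : EE n) :
    fderiv ℝ f z u = ∑ i, u i • dv1 f z i := by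
  have h : u = ∑ i, u i • (ee i : EE n) := by
    ext j
    simp [ee, Pi.single_apply]
  conv_lhs => rw [h]
  rw [map_sum]
  simp only [map_smul, dv1]

theorem snd_symm {n N : ℕ} {f : EE n → EE N} {y : EE n} (hf : ContDiffAt ℝ ∞ f y) (u v : EE n) :
    fderiv ℝ (fun y' => fderiv ℝ f y' v) y u = fderiv ℝ (fun y' => fderiv ℝ f y' u) y v := by
  have h2 : ContDiffAt ℝ 2 f y := hf.of_le (by
    have : ((2 : ℕ∞) : WithTop ℕ∞) ≤ ((⊤ : ℕ∞) : WithTop ℕ∞) := WithTop.coe_le_coe.2 le_top
    exact this)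
  have hd : DifferentiableAt ℝ (fderiv ℝ f) y :=
    (h2.fderiv_right (m := 1) (by norm_num)).differentiableAt (by norm_num)
  have key : ∀ u v, fderiv ℝ (fun y' => fderiv ℝ f y' v) y u = fderiv ℝ (fderiv ℝ f) y u v := by
    intro u v
    rw [fderiv_clm_apply hd (differentiableAt_const v)]
    simp
  rw [key, key]
  exact (h2.isSymmSndFDerivAt (by simp)).eq u v

section Chart

variable {n N : ℕ} {M : Type} [TopologicalSpace M] [ChartedSpace (EE n) M]
  [IsManifold (𝓡 n) ∞ M]

theorem smooth_at {G : M → EE N} (hG : ContMDiff (𝓡 n) 𝓘(ℝ, EE N) ∞ G) (p : M) {y : EE n}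
    (hy : y ∈ (chartAt (EE n) p).target) :
    ContDiffAt ℝ ∞ (fun y => G ((chartAt (EE n) p).symm y)) y := by
  have h1 : ContMDiffOn (𝓡 n) (𝓡 n) ∞ (chartAt (EE n) p).symm (chartAt (EE n) p).target :=
    contMDiffOn_chart_symm
  have h2 : ContDiffOn ℝ ∞ (fun y => G ((chartAt (EE n) p).symm y))
      (chartAt (EE n) p).target := by
    rw [← contMDiffOn_iff_contDiffOn]
    exact hG.comp_contMDiffOn h1
  exact h2.contDiffAt ((chartAt (EE n) p).open_target.mem_nhds hy)

/-- change of charts for first derivatives -/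
theorem change (p q : M) {y : EE n} (hy : y ∈ (chartAt (EE n) p).target)
    (hq : q = (chartAt (EE n) p).symm y) :
    ∃ L : EE n →L[ℝ] EE n, ∀ G : M → EE N, ContMDiff (𝓡 n) 𝓘(ℝ, EE N) ∞ G → ∀ v,
      fderiv ℝ (fun y => G ((chartAt (EE n) p).symm y)) y v
        = fderiv ℝ (fun y => G ((chartAt (EE n) q).symm y)) (chartAt (EE n) q q) (L v) := by
  have hqq : q ∈ (chartAt (EE n) q).source := mem_chart_source (EE n) q
  have hyq : (chartAt (EE n) p).symm y ∈ (chartAt (EE n) q).source := hq ▸ hqq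
  have hφ : ContDiffAt ℝ ∞ (fun y => chartAt (EE n) q ((chartAt (EE n) p).symm y)) y := by
    have h := contDiffWithinAt_ext_coord_change (I := 𝓡 n) (n := ∞) (𝕜 := ℝ) q p
      (y := y) (by
        rw [ext_coord_change_source]
        refine ⟨y, ?_, rfl⟩
        rw [OpenPartialHomeomorph.trans_source]
        exact ⟨hy, hyq⟩)
    rw [ModelWithCorners.range_eq_univ, contDiffWithinAt_univ] at h
    exact h
  refine ⟨fderiv ℝ (fun y => chartAt (EE n) q ((chartAt (EE n) p).symm y)) y, ?_⟩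
  intro G hG v
  have hev : ∀ᶠ y' in 𝓝 y, (chartAt (EE n) p).symm y' ∈ (chartAt (EE n) q).source := by
    apply ((chartAt (EE n) p).continuousAt_symm hy).eventually_mem
    exact (chartAt (EE n) q).open_source.mem_nhds hyq
  have heq : (fun y => G ((chartAt (EE n) p).symm y)) =ᶠ[𝓝 y]
      (fun y => G ((chartAt (EE n) q).symm y)) ∘
        (fun y => chartAt (EE n) q ((chartAt (EE n) p).symm y)) := by
    filter_upwards [hev] with y' hy'
    simp only [Function.comp_apply]
    rw [(chartAt (EE n) q).left_inv hy']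
  have hz : chartAt (EE n) q ((chartAt (EE n) p).symm y) = chartAt (EE n) q q := by rw [← hq]
  rw [heq.fderiv_eq, fderiv_comp]
  · rw [ContinuousLinearMap.comp_apply, hz]
  · rw [hz]
    exact (smooth_at hG q ((chartAt (EE n) q).map_source hqq)).differentiableAt (by simp)
  · exact hφ.differentiableAt (by simp)

end Chart

/-- frozen family -/
theorem frozen {n : ℕ} {M : Type} [TopologicalSpace M] [ChartedSpace (EE n) M] {ρ t : ℝ}
    {F ν : M → ℝ → EE (n + 2)} (h : Hyp n ρ t F ν) :
    IsImmJ (n := n) univ (fun q (_ : ℝ) => F q t) := by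
  refine ⟨isOpen_univ, ?_, ?_⟩
  · have : ContMDiff ((𝓡 n).prod 𝓘(ℝ, ℝ)) 𝓘(ℝ, EE (n + 2)) ∞ (fun z : M × ℝ => F z.1 t) :=
      h.sF.comp contMDiff_fst
    exact this.contMDiffOn
  · intro p s _
    exact h.im p

theorem hWEI (hI3J : StI3J) (hNR : StNR) : StWEI := by
  intro n M _ _ _ ρ t F ν h
  -- smoothness in charts
  have hsF : ∀ p : M, ∀ y ∈ (chartAt (EE n) p).target,
      ContDiffAt ℝ ∞ (fun y => F ((chartAt (EE n) p).symm y) t) y :=
    fun p y hy => smooth_at (G := fun q => F q t) h.sF p hy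
  have hsν : ∀ p : M, ∀ y ∈ (chartAt (EE n) p).target,
      ContDiffAt ℝ ∞ (fun y => ν ((chartAt (EE n) p).symm y) t) y :=
    fun p y hy => smooth_at (G := fun q => ν q t) h.sν p hy
  have hdF : ∀ p : M, ∀ y ∈ (chartAt (EE n) p).target,
      DifferentiableAt ℝ (fun y => F ((chartAt (EE n) p).symm y) t) y :=
    fun p y hy => (hsF p y hy).differentiableAt (by simp)
  have hdν : ∀ p : M, ∀ y ∈ (chartAt (EE n) p).target,
      DifferentiableAt ℝ (fun y => ν ((chartAt (EE n) p).symm y) t) y :=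
    fun p y hy => (hsν p y hy).differentiableAt (by simp)
  -- independence and tangency in charts
  have hI : ∀ p : M, ∀ y ∈ (chartAt (EE n) p).target,
      LI (loc (n := n) F p t) y ∧ ∀ i,
        (inner ℝ (dv1 (loc (n := n) F p t) y i) (ν ((chartAt (EE n) p).symm y) t) : ℝ) = 0 := by
    intro p y hy
    have hq := (chartAt (EE n) p).map_target hy
    have hz := (chartAt (EE n) p).right_inv hy
    have := hI3J n (n + 2) M univ (fun q (_ : ℝ) => F q t) (frozen h) p
      ((chartAt (EE n) p).symm y) t (mem_univ _) hq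
    rw [hz] at this
    obtain ⟨h1, -, -, -, h2⟩ := this
    refine ⟨h1, ?_⟩
    intro i
    apply h.tν
    change _ ∈ TS (n := n) (fun q (_ : ℝ) => F q t) ((chartAt (EE n) p).symm y) t
    rw [h2]
    exact Submodule.subset_span ⟨i, rfl⟩
  have hone : ∀ p : M, ∀ y ∈ (chartAt (EE n) p).target, ∀ v : EE n,
      (inner ℝ (fderiv ℝ (fun y => F ((chartAt (EE n) p).symm y) t) y v)
        (ν ((chartAt (EE n) p).symm y) t) : ℝ) = 0 := by
    intro p y hy v
    rw [fderiv_sum, sum_inner]
    apply Finset.sum_eq_zero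
    intro i _
    rw [inner_smul_left]
    have := (hI p y hy).2 i
    unfold loc at this
    rw [this, mul_zero]
  have htwo : ∀ p : M, ∀ y ∈ (chartAt (EE n) p).target, ∀ v : EE n,
      (inner ℝ (fderiv ℝ (fun y => ν ((chartAt (EE n) p).symm y) t) y v)
        (ν ((chartAt (EE n) p).symm y) t) : ℝ) = 0 := by
    intro p y hy v
    have h1 := fderiv_inner_apply ℝ (hdν p y hy) (hdν p y hy) v
    have h2 : (fun y => (inner ℝ (ν ((chartAt (EE n) p).symm y) t)
        (ν ((chartAt (EE n) p).symm y) t) : ℝ)) = fun _ => 1 := by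
      funext y
      rw [real_inner_self_eq_norm_sq, h.nν]; norm_num
    rw [h2] at h1
    rw [real_inner_comm (fderiv ℝ (fun y => ν ((chartAt (EE n) p).symm y) t) y v)] at h1
    simp only [fderiv_fun_const, Pi.zero_apply, zero_apply] at h1
    linarith
  have hfour : ∀ p : M, ∀ y ∈ (chartAt (EE n) p).target, ∀ v : EE n,
      (inner ℝ (fderiv ℝ (fun y => F ((chartAt (EE n) p).symm y) t) y v)
        (F ((chartAt (EE n) p).symm y) t) : ℝ) = 0 := by
    intro p y hy v
    have h1 := fderiv_inner_apply ℝ (hdF p y hy) (hdF p y hy) v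
    have h2 : (fun y => (inner ℝ (F ((chartAt (EE n) p).symm y) t)
        (F ((chartAt (EE n) p).symm y) t) : ℝ)) = fun _ => ρ ^ 2 := by
      funext y
      rw [real_inner_self_eq_norm_sq, h.nF]
    rw [h2] at h1
    rw [real_inner_comm (fderiv ℝ (fun y => F ((chartAt (EE n) p).symm y) t) y v)] at h1
    simp only [fderiv_fun_const, Pi.zero_apply, zero_apply] at h1
    linarith
  have hthree : ∀ p : M, ∀ y ∈ (chartAt (EE n) p).target, ∀ v : EE n,
      (inner ℝ (fderiv ℝ (fun y => ν ((chartAt (EE n) p).symm y) t) y v)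
        (F ((chartAt (EE n) p).symm y) t) : ℝ) = 0 := by
    intro p y hy v
    have h1 := fderiv_inner_apply ℝ (hdν p y hy) (hdF p y hy) v
    have h2 : (fun y => (inner ℝ (ν ((chartAt (EE n) p).symm y) t)
        (F ((chartAt (EE n) p).symm y) t) : ℝ)) = fun _ => 0 := by
      funext y
      rw [real_inner_comm, h.Fν]
    rw [h2] at h1
    rw [real_inner_comm (fderiv ℝ (fun y => F ((chartAt (EE n) p).symm y) t) y v),
      hone p y hy v] at h1
    simp only [fderiv_fun_const, Pi.zero_apply, zero_apply] at h1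
    linarith
  refine ⟨fun p y hy v => ⟨hone p y hy v, htwo p y hy v, hthree p y hy v, hfour p y hy v⟩, ?_⟩
  intro lo hi hlh a₁ b₁ a₂ b₂ hP
  -- second derivatives
  have hsnd : ∀ p : M, ∀ y ∈ (chartAt (EE n) p).target, ∀ u v : EE n,
      (inner ℝ (fderiv ℝ (fun y' => fderiv ℝ (fun y => F ((chartAt (EE n) p).symm y) t) y' v) y u)
        (ν ((chartAt (EE n) p).symm y) t) : ℝ)
      = - inner ℝ (fderiv ℝ (fun y => F ((chartAt (EE n) p).symm y) t) y v)
          (fderiv ℝ (fun y => ν ((chartAt (EE n) p).symm y) t) y u) := by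
    intro p y hy u v
    have hd : DifferentiableAt ℝ
        (fun y' => fderiv ℝ (fun y => F ((chartAt (EE n) p).symm y) t) y' v) y := by
      have h2 : ContDiffAt ℝ 2 (fun y => F ((chartAt (EE n) p).symm y) t) y :=
        (hsF p y hy).of_le (by
          have : ((2 : ℕ∞) : WithTop ℕ∞) ≤ ((⊤ : ℕ∞) : WithTop ℕ∞) := WithTop.coe_le_coe.2 le_top
          exact this)
      exact ((h2.fderiv_right (m := 1) (by norm_num)).differentiableAt (by norm_num)).clm_apply
        (differentiableAt_const v)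
    have h1 := fderiv_inner_apply ℝ hd (hdν p y hy) u
    have h2 : (fun y' => (inner ℝ (fderiv ℝ (fun y => F ((chartAt (EE n) p).symm y) t) y' v)
        (ν ((chartAt (EE n) p).symm y') t) : ℝ)) =ᶠ[𝓝 y] fun _ => 0 := by
      filter_upwards [(chartAt (EE n) p).open_target.mem_nhds hy] with y' hy'
      exact hone p y' hy' v
    rw [h2.fderiv_eq] at h1
    simp only [fderiv_fun_const, Pi.zero_apply, zero_apply] at h1
    linarith
  -- values in the preferred chart
  have hval : ∀ q : M, ∀ u : EE n,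
      ‖fderiv ℝ (fun y => F ((chartAt (EE n) q).symm y) t) (chartAt (EE n) q q) u‖ = 1 →
      lo < -(inner ℝ (fderiv ℝ (fun y => ν ((chartAt (EE n) q).symm y) t) (chartAt (EE n) q q) u)
        (fderiv ℝ (fun y => F ((chartAt (EE n) q).symm y) t) (chartAt (EE n) q q) u) : ℝ) ∧
      -(inner ℝ (fderiv ℝ (fun y => ν ((chartAt (EE n) q).symm y) t) (chartAt (EE n) q q) u)
        (fderiv ℝ (fun y => F ((chartAt (EE n) q).symm y) t) (chartAt (EE n) q q) u) : ℝ) < hi := by
    intro q u hu
    have hqq : q ∈ (chartAt (EE n) q).source := mem_chart_source (EE n) q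
    have hzt := (chartAt (EE n) q).map_source hqq
    have hsy : (chartAt (EE n) q).symm (chartAt (EE n) q q) = q := (chartAt (EE n) q).left_inv hqq
    have hg : gn F q t (fun i => u i) = 1 := by
      unfold gn tv loc
      rw [← fderiv_sum, hu]; norm_num
    have hh : hn F ν q t (fun i => u i)
        = -(inner ℝ (fderiv ℝ (fun y => ν ((chartAt (EE n) q).symm y) t) (chartAt (EE n) q q) u)
        (fderiv ℝ (fun y => F ((chartAt (EE n) q).symm y) t) (chartAt (EE n) q q) u) : ℝ) := by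
      obtain ⟨hL, hT⟩ := hI q _ hzt
      obtain ⟨-, -, -, h4, -, -, h7, -⟩ := hNR n (n + 2) _ _ hL
      rw [hsy] at hT
      have hw : nrm (loc (n := n) F q t) (chartAt (EE n) q q) (ν q t) = ν q t := by
        apply h4
        intro i
        rw [real_inner_comm]
        exact hT i
      unfold hn An
      rw [sum_inner]
      rw [fderiv_sum (fun y => ν ((chartAt (EE n) q).symm y) t), sum_inner, ← Finset.sum_neg_distrib]
      apply Finset.sum_congr rfl
      intro i _
      rw [sum_inner, inner_smul_left, fderiv_sum (fun y => F ((chartAt (EE n) q).symm y) t),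
        inner_sum, Finset.mul_sum, ← Finset.sum_neg_distrib]
      apply Finset.sum_congr rfl
      intro j _
      rw [inner_smul_left, inner_smul_right]
      have h8 : (inner ℝ (sff (loc (n := n) F q t) (chartAt (EE n) q q) i j) (ν q t) : ℝ)
          = - inner ℝ (dv1 (fun y => ν ((chartAt (EE n) q).symm y) t) (chartAt (EE n) q q) i)
            (dv1 (fun y => F ((chartAt (EE n) q).symm y) t) (chartAt (EE n) q q) j) := by
        unfold sff
        rw [h7, hw]
        have := hsnd q _ hzt (ee i) (ee j)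
        rw [hsy] at this
        rw [real_inner_comm (dv1 (fun y => F ((chartAt (EE n) q).symm y) t)
          (chartAt (EE n) q q) j)]
        exact this
      rw [h8]
      simp only [conj_trivial]
      ring
    have := hlh q _ hg
    rw [hh] at this
    exact this
  intro p y hy v hv
  obtain ⟨q, hq⟩ : ∃ q, q = (chartAt (EE n) p).symm y := ⟨_, rfl⟩
  obtain ⟨L, hL⟩ := change (N := n + 2) p q hy hq
  obtain ⟨A, hA⟩ : ∃ A : EE n →ₗ[ℝ] EE (n + 2), ∀ v, A v
      = fderiv ℝ (fun y => F ((chartAt (EE n) p).symm y) t) y v := ⟨_, fun _ => rfl⟩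
  obtain ⟨B, hB⟩ : ∃ B : EE n →ₗ[ℝ] EE (n + 2), ∀ v, B v
      = - fderiv ℝ (fun y => ν ((chartAt (EE n) p).symm y) t) y v :=
    ⟨((-(fderiv ℝ (fun y => ν ((chartAt (EE n) p).symm y) t) y) :
      EE n →L[ℝ] EE (n + 2)) : EE n →ₗ[ℝ] EE (n + 2)), fun _ => rfl⟩
  have hAi : Function.Injective A := by
    rw [← LinearMap.ker_eq_bot, LinearMap.ker_eq_bot']
    intro u hu
    rw [hA, fderiv_sum] at hu
    have := (Fintype.linearIndependent_iff.1 (hI p y hy).1) (fun i => u i) hu
    ext i
    exact this i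
  have hAν : ∀ u, (inner ℝ (A u) (ν q t) : ℝ) = 0 := fun u => by
    rw [hA, hq]; exact hone p y hy u
  have hAF : ∀ u, (inner ℝ (A u) (F q t) : ℝ) = 0 := fun u => by
    rw [hA, hq]; exact hfour p y hy u
  have hBν : ∀ u, (inner ℝ (B u) (ν q t) : ℝ) = 0 := fun u => by
    rw [hB, hq, inner_neg_left, htwo p y hy u, neg_zero]
  have hBF : ∀ u, (inner ℝ (B u) (F q t) : ℝ) = 0 := fun u => by
    rw [hB, hq, inner_neg_left, hthree p y hy u, neg_zero]
  have hBr : ∀ u, B u ∈ LinearMap.range A := by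
    obtain ⟨S, hS⟩ : ∃ S : Submodule ℝ (EE (n + 2)), S = Submodule.span ℝ {F q t, ν q t} :=
      ⟨_, rfl⟩
    have hmem : ∀ x : EE (n + 2), (inner ℝ x (F q t) : ℝ) = 0 → (inner ℝ x (ν q t) : ℝ) = 0 →
        x ∈ Sᗮ := by
      intro x h1 h2
      rw [Submodule.mem_orthogonal']
      intro u hu
      rw [hS, Submodule.mem_span_pair] at hu
      obtain ⟨a, b, rfl⟩ := hu
      rw [inner_add_right, inner_smul_right, inner_smul_right, h1, h2]; ring
    have hli : LinearIndependent ℝ ![F q t, ν q t] := by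
      rw [LinearIndependent.pair_iff]
      intro a b hab
      have e1 : (inner ℝ (a • F q t + b • ν q t) (F q t) : ℝ) = 0 := by rw [hab, inner_zero_left]
      have e2 : (inner ℝ (a • F q t + b • ν q t) (ν q t) : ℝ) = 0 := by rw [hab, inner_zero_left]
      have hνF : (inner ℝ (ν q t) (F q t) : ℝ) = 0 := by rw [real_inner_comm]; exact h.Fν q
      rw [inner_add_left, inner_smul_left, inner_smul_left, hνF, real_inner_self_eq_norm_sq,
        h.nF] at e1
      rw [inner_add_left, inner_smul_left, inner_smul_left, h.Fν, real_inner_self_eq_norm_sq,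
        h.nν] at e2
      simp only [conj_trivial] at e1 e2
      have hρ := h.ρ0
      constructor
      · have : a * ρ ^ 2 = 0 := by linarith
        rcases mul_eq_zero.1 this with h0 | h0
        · exact h0
        · exact absurd h0 (by positivity)
      · linarith
    have hfS : Module.finrank ℝ S = 2 := by
      rw [hS]
      have hr : range ![F q t, ν q t] = {F q t, ν q t} := by
        ext x
        simp only [mem_range, Fin.exists_fin_two, Matrix.cons_val_zero, Matrix.cons_val_one,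
          mem_insert_iff, mem_singleton_iff, eq_comm]
      have hc := finrank_span_eq_card hli
      rw [hr] at hc
      simpa using hc
    have hfo : Module.finrank ℝ Sᗮ = n := by
      have := S.finrank_add_finrank_orthogonal
      rw [hfS, finrank_euclideanSpace, Fintype.card_fin] at this
      omega
    have hle : LinearMap.range A ≤ Sᗮ := by
      rintro x ⟨u, rfl⟩
      exact hmem _ (hAF u) (hAν u)
    have hfA : Module.finrank ℝ (LinearMap.range A) = n := by
      rw [LinearMap.finrank_range_of_inj hAi, finrank_euclideanSpace, Fintype.card_fin]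
    have heq : LinearMap.range A = Sᗮ :=
      Submodule.eq_of_le_of_finrank_eq hle (by rw [hfA, hfo])
    intro u
    rw [heq]
    exact hmem _ (hBF u) (hBν u)
  have hsy : ∀ u v, (inner ℝ (B u) (A v) : ℝ) = inner ℝ (A u) (B v) := by
    intro u v
    have e1 := hsnd p y hy u v
    have e2 := hsnd p y hy v u
    rw [snd_symm (hsF p y hy) u v, e2] at e1
    rw [hA, hA, hB, hB, inner_neg_left, inner_neg_right,
      real_inner_comm _ (fderiv ℝ (fun y => ν ((chartAt (EE n) p).symm y) t) y u)]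
    linarith
  have key := spec A B hAi hBr hsy lo hi (by
    intro u hu
    rw [hB, hA, inner_neg_left]
    rw [hA] at hu
    rw [hL (fun q => F q t) h.sF] at hu ⊢
    rw [hL (fun q => ν q t) h.sν]
    exact hval q (L u) hu) a₁ b₁ a₂ b₂ hP v hv
  have hD : ∀ a b : ℝ, fderiv ℝ (fun y => a • F ((chartAt (EE n) p).symm y) t
            - b • ν ((chartAt (EE n) p).symm y) t) y v = a • A v + b • B v := by
    intro a b
    have hh : HasFDerivAt (fun y => a • F ((chartAt (EE n) p).symm y) t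
            - b • ν ((chartAt (EE n) p).symm y) t)
        (a • fderiv ℝ (fun y => F ((chartAt (EE n) p).symm y) t) y
          - b • fderiv ℝ (fun y => ν ((chartAt (EE n) p).symm y) t) y) y :=
      ((hdF p y hy).hasFDerivAt.const_smul a).sub ((hdν p y hy).hasFDerivAt.const_smul b)
    rw [hh.fderiv, hA, hB]
    rw [smul_neg, ← sub_eq_add_neg]
    rfl
  rw [hD, hD]
  exact key

end Helper40.HSF
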